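import Mathlib

/-!
# Colourings indexed by contexts, chosen by counting
-/

set_option autoImplicit false

open Finset

namespace Pool.Agent.N441.CD

/-- the colouring `y` is bad on `T`: its sum over `T` is zero or it misses a colour on `T` -/
def Bad {n p : ℕ} (T : Finset (Fin n)) (y : Fin n → ZMod p) : Prop :=
  ∑ v ∈ T, y v = 0 ∨ ∃ c : ZMod p, ∀ v ∈ T, y v ≠ c

theorem card_pi {I Ω : Type} [Fintype I] [DecidableEq I] [Fintype Ω] [DecidableEq Ω]
    (D : Finset I) (B : Finset Ω) :
    #{G : I → Ω | ∀ c ∈ D, G c ∈ B} * Fintype.card Ω ^ D.card =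
      B.card ^ D.card * Fintype.card Ω ^ Fintype.card I := by
  classical
  have h1 : (univ.filter fun G : I → Ω => ∀ c ∈ D, G c ∈ B) =
      Fintype.piFinset fun c => if c ∈ D then B else univ := by
    ext G
    simp only [mem_filter, mem_univ, true_and, Fintype.mem_piFinset]
    constructor
    · intro h c
      split_ifs with hc
      · exact h c hc
      · exact mem_univ _
    · intro h c hc
      have := h c
      rwa [if_pos hc] at this
  rw [h1, Fintype.card_piFinset]
  have h2 : ∀ c : I, (if c ∈ D then B else univ : Finset Ω).card =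
      if c ∈ D then B.card else Fintype.card Ω := by
    intro c
    split_ifs <;> rfl
  simp_rw [h2]
  rw [prod_ite, prod_const, prod_const]
  have h3 : (univ.filter fun c => c ∈ D) = D := by ext; simp
  have h4 : (univ.filter fun c => c ∉ D).card = Fintype.card I - D.card := by
    rw [← card_compl]
    congr 1
    ext; simp
  rw [h3, h4, mul_assoc, ← pow_add, Nat.sub_add_cancel (card_le_univ D)]

/-- the union bound -/
theorem exists_avoid {I Ω : Type} [Fintype I] [DecidableEq I] [Fintype Ω] [DecidableEq Ω]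
    [Nonempty Ω] (m q : ℕ) (fam : Finset (Finset I × Finset Ω))
    (h1 : ∀ w ∈ fam, w.1.card = m ∧ w.2.card * q ≤ Fintype.card Ω) (h2 : fam.card < q ^ m) :
    ∃ G : I → Ω, ∀ w ∈ fam, ∃ c ∈ w.1, G c ∉ w.2 := by
  classical
  by_contra hcon
  push Not at hcon
  set W := Fintype.card Ω with hW
  have hWpos : 0 < W := Fintype.card_pos
  have hcover : (univ : Finset (I → Ω)) ⊆ fam.biUnion fun w =>
      univ.filter fun G : I → Ω => ∀ c ∈ w.1, G c ∈ w.2 := by
    intro G _
    obtain ⟨w, hw, h⟩ := hcon G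
    exact mem_biUnion.2 ⟨w, hw, mem_filter.2 ⟨mem_univ _, h⟩⟩
  have h3 := (card_le_card hcover).trans card_biUnion_le
  rw [card_univ, Fintype.card_fun, ← hW] at h3
  have h4 : ∀ w ∈ fam, #{G : I → Ω | ∀ c ∈ w.1, G c ∈ w.2} * q ^ m ≤ W ^ Fintype.card I := by
    intro w hw
    obtain ⟨hm, hq⟩ := h1 w hw
    have e := card_pi (I := I) (Ω := Ω) w.1 w.2
    rw [hm, ← hW] at e
    have hWm : 0 < W ^ m := pow_pos hWpos m
    refine Nat.le_of_mul_le_mul_right ?_ hWm
    calc #{G : I → Ω | ∀ c ∈ w.1, G c ∈ w.2} * q ^ m * W ^ m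
        = #{G : I → Ω | ∀ c ∈ w.1, G c ∈ w.2} * W ^ m * q ^ m := by ring
      _ = w.2.card ^ m * W ^ Fintype.card I * q ^ m := by rw [e]
      _ = (w.2.card * q) ^ m * W ^ Fintype.card I := by rw [mul_pow]; ring
      _ ≤ W ^ m * W ^ Fintype.card I := Nat.mul_le_mul_right _ (Nat.pow_le_pow_left hq m)
      _ = W ^ Fintype.card I * W ^ m := by ring
  have h5 : W ^ Fintype.card I * q ^ m ≤ fam.card * W ^ Fintype.card I := by
    calc W ^ Fintype.card I * q ^ m
        ≤ (∑ w ∈ fam, #{G : I → Ω | ∀ c ∈ w.1, G c ∈ w.2}) * q ^ m := Nat.mul_le_mul_right _ h3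
      _ = ∑ w ∈ fam, #{G : I → Ω | ∀ c ∈ w.1, G c ∈ w.2} * q ^ m := by rw [sum_mul]
      _ ≤ ∑ w ∈ fam, W ^ Fintype.card I := sum_le_sum h4
      _ = fam.card * W ^ Fintype.card I := by rw [sum_const, smul_eq_mul]
  have h6 : 0 < W ^ Fintype.card I := pow_pos hWpos _
  have h7 : q ^ m ≤ fam.card := by
    refine Nat.le_of_mul_le_mul_left ?_ h6
    linarith
  omega

theorem card_sum_zero {n p : ℕ} [NeZero p] {T : Finset (Fin n)} (hT : T.Nonempty) :
    #{y : Fin n → ZMod p | ∑ v ∈ T, y v = 0} * p = p ^ n := by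
  classical
  obtain ⟨v₀, hv₀⟩ := hT
  have h1 : ∀ c : ZMod p, #{y : Fin n → ZMod p | ∑ v ∈ T, y v = c} =
      #{y : Fin n → ZMod p | ∑ v ∈ T, y v = 0} := by
    intro c
    refine card_bij (fun y _ => y + Pi.single v₀ (-c)) ?_ ?_ ?_
    · intro y hy
      rw [mem_filter] at hy ⊢
      refine ⟨mem_univ _, ?_⟩
      simp only [Pi.add_apply, sum_add_distrib, hy.2]
      rw [sum_pi_single', if_pos hv₀]
      ring
    · intro y _ y' _ h
      exact add_right_cancel h
    · intro y hy
      rw [mem_filter] at hy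
      refine ⟨y + Pi.single v₀ c, ?_, ?_⟩
      · rw [mem_filter]
        refine ⟨mem_univ _, ?_⟩
        simp only [Pi.add_apply, sum_add_distrib, hy.2]
        rw [sum_pi_single', if_pos hv₀]
        ring
      · rw [add_assoc, ← Pi.single_add]
        simp
  have h2 : ∑ c : ZMod p, #{y : Fin n → ZMod p | ∑ v ∈ T, y v = c} =
      Fintype.card (Fin n → ZMod p) := by
    rw [← card_univ]
    exact (card_eq_sum_card_fiberwise (f := fun y : Fin n → ZMod p => ∑ v ∈ T, y v)
      (t := univ) (fun _ _ => mem_univ _)).symm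
  simp_rw [h1] at h2
  rw [sum_const, card_univ, ZMod.card, smul_eq_mul, Fintype.card_fun, ZMod.card,
    Fintype.card_fin] at h2
  rw [mul_comm, h2]

theorem card_miss {n p : ℕ} [NeZero p] (T : Finset (Fin n)) (c : ZMod p) :
    #{y : Fin n → ZMod p | ∀ v ∈ T, y v ≠ c} * p ^ T.card = (p - 1) ^ T.card * p ^ n := by
  classical
  have h := card_pi (I := Fin n) (Ω := ZMod p) T (univ.erase c)
  rw [card_erase_of_mem (mem_univ _), card_univ, ZMod.card, Fintype.card_fin] at h
  rw [← h]
  congr 2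
  ext y
  simp

open Classical in
theorem card_bad {n p s₀ : ℕ} [NeZero p] (hs : 1 ≤ s₀)
    (hp : ∀ s, s₀ ≤ s → (p - 1) ^ s * p ^ 2 ≤ p ^ s) {T : Finset (Fin n)} (hT : s₀ ≤ T.card) :
    #{y : Fin n → ZMod p | Bad T y} * p ≤ 2 * p ^ n := by
  have hT' : T.Nonempty := card_pos.1 (by omega)
  have hsub : (univ.filter fun y : Fin n → ZMod p => Bad T y) ⊆
      (univ.filter fun y : Fin n → ZMod p => ∑ v ∈ T, y v = 0) ∪
        (univ : Finset (ZMod p)).biUnion fun c =>
          univ.filter fun y : Fin n → ZMod p => ∀ v ∈ T, y v ≠ c := by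
    intro y hy
    rw [mem_filter] at hy
    rcases hy.2 with h | ⟨c, h⟩
    · exact mem_union_left _ (mem_filter.2 ⟨mem_univ _, h⟩)
    · exact mem_union_right _ (mem_biUnion.2 ⟨c, mem_univ _, mem_filter.2 ⟨mem_univ _, h⟩⟩)
  have h1 := (card_le_card hsub).trans (card_union_le _ _)
  have h2 : #((univ : Finset (ZMod p)).biUnion fun c =>
      univ.filter fun y : Fin n → ZMod p => ∀ v ∈ T, y v ≠ c) * p ≤ p ^ n := by
    have hpos : 0 < p := NeZero.pos p
    have hpT : 0 < p ^ T.card := pow_pos hpos _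
    refine Nat.le_of_mul_le_mul_right ?_ hpT
    calc #((univ : Finset (ZMod p)).biUnion fun c =>
          univ.filter fun y : Fin n → ZMod p => ∀ v ∈ T, y v ≠ c) * p * p ^ T.card
        ≤ (∑ c : ZMod p, #{y : Fin n → ZMod p | ∀ v ∈ T, y v ≠ c}) * p * p ^ T.card :=
          Nat.mul_le_mul_right _ (Nat.mul_le_mul_right _ card_biUnion_le)
      _ = (∑ c : ZMod p, #{y : Fin n → ZMod p | ∀ v ∈ T, y v ≠ c} * p ^ T.card) * p := by
          rw [← sum_mul]; ring
      _ = (∑ c : ZMod p, (p - 1) ^ T.card * p ^ n) * p := by simp_rw [card_miss]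
      _ = (p - 1) ^ T.card * p ^ 2 * p ^ n := by
          rw [sum_const, card_univ, ZMod.card, smul_eq_mul]; ring
      _ ≤ p ^ T.card * p ^ n := Nat.mul_le_mul_right _ (hp _ hT)
      _ = p ^ n * p ^ T.card := by ring
  calc #{y : Fin n → ZMod p | Bad T y} * p
      ≤ (#{y : Fin n → ZMod p | ∑ v ∈ T, y v = 0} +
        #((univ : Finset (ZMod p)).biUnion fun c =>
          univ.filter fun y : Fin n → ZMod p => ∀ v ∈ T, y v ≠ c)) * p :=
        Nat.mul_le_mul_right _ h1
    _ = #{y : Fin n → ZMod p | ∑ v ∈ T, y v = 0} * p +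
        #((univ : Finset (ZMod p)).biUnion fun c =>
          univ.filter fun y : Fin n → ZMod p => ∀ v ∈ T, y v ≠ c) * p := by ring
    _ ≤ p ^ n + p ^ n := by rw [card_sum_zero hT']; omega
    _ = 2 * p ^ n := by ring

open Classical in
/-- colourings `G C` of the vertices, indexed by the contexts `C`, such that for every set `T` with
at least `s₀` elements and every `E` at most `n / L` vertices `z` outside `E` are such that
`G (E ∪ {z})` is bad on `T` -/
theorem exists_G {L s₀ : ℕ} (n : ℕ) (hs : 1 ≤ s₀)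
    (hp : ∀ s, s₀ ≤ s → (2 * 8 ^ L - 1) ^ s * (2 * 8 ^ L) ^ 2 ≤ (2 * 8 ^ L) ^ s) :
    ∃ G : Finset (Fin n) → Fin n → ZMod (2 * 8 ^ L), ∀ E T : Finset (Fin n), s₀ ≤ T.card →
      #{z | z ∉ E ∧ Bad T (G (insert z E))} * L ≤ n := by
  have hne : NeZero (2 * 8 ^ L) := ⟨by positivity⟩
  rcases Nat.eq_zero_or_pos L with hL | hL
  · subst hL
    exact ⟨fun _ _ => 0, fun _ _ _ => by simp⟩
  set p := 2 * 8 ^ L with hpdef
  set m := n / L + 1 with hm
  set fam : Finset (Finset (Finset (Fin n)) × Finset (Fin n → ZMod p)) :=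
    ((univ : Finset (Finset (Fin n) × Finset (Fin n) × Finset (Fin n))).filter
      fun w => (∀ z ∈ w.2.2, z ∉ w.1) ∧ s₀ ≤ w.2.1.card ∧ w.2.2.card = m).image fun w =>
        (w.2.2.image fun z => insert z w.1, univ.filter fun y => Bad w.2.1 y) with hfam
  have H1 : ∀ w ∈ fam, w.1.card = m ∧ w.2.card * 8 ^ L ≤ Fintype.card (Fin n → ZMod p) := by
    intro w hw
    rw [hfam, mem_image] at hw
    obtain ⟨⟨E, T, Z⟩, h, rfl⟩ := hw
    rw [mem_filter] at h
    obtain ⟨_, h1, h2, h3⟩ := h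
    simp only at h1 h2 h3 ⊢
    constructor
    · rw [card_image_of_injOn, h3]
      intro z hz z' hz' hzz
      simp only at hzz
      have : z ∈ insert z' E := by rw [← hzz]; exact mem_insert_self _ _
      rcases mem_insert.1 this with h | h
      · exact h
      · exact absurd h (h1 z hz)
    · have h4 := card_bad (n := n) (p := p) hs hp h2
      rw [Fintype.card_fun, ZMod.card, Fintype.card_fin]
      have h5 : #{y : Fin n → ZMod p | Bad T y} * (8 ^ L) * 2 ≤ p ^ n * 2 := by
        calc #{y : Fin n → ZMod p | Bad T y} * (8 ^ L) * 2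
            = #{y : Fin n → ZMod p | Bad T y} * p := by
              rw [mul_assoc]
              have hp2 : 8 ^ L * 2 = p := by rw [hpdef]; ring
              exact congrArg _ hp2
          _ ≤ 2 * p ^ n := h4
          _ = p ^ n * 2 := by ring
      omega
  have H2 : fam.card < (8 ^ L) ^ m := by
    have h1 : fam.card ≤ 8 ^ n := by
      refine card_image_le.trans ((card_filter_le _ _).trans ?_)
      rw [card_univ]
      simp only [Fintype.card_prod, Fintype.card_finset, Fintype.card_fin]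
      rw [← mul_assoc, ← mul_pow, ← mul_pow]
      norm_num
    refine lt_of_le_of_lt h1 ?_
    rw [← pow_mul]
    apply Nat.pow_lt_pow_right (by norm_num)
    rw [hm]
    exact Nat.lt_mul_div_succ n hL
  obtain ⟨G, hG⟩ := exists_avoid (I := Finset (Fin n)) (Ω := Fin n → ZMod p) m (8 ^ L) fam H1 H2
  refine ⟨G, fun E T hT => ?_⟩
  by_contra hcon
  push Not at hcon
  have h1 : m ≤ #{z | z ∉ E ∧ Bad T (G (insert z E))} := by
    rw [hm]
    have := (Nat.div_lt_iff_lt_mul hL).2 hcon
    omega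
  obtain ⟨Z, hZ1, hZ2⟩ := exists_subset_card_eq h1
  obtain ⟨c, hc1, hc2⟩ := hG (Z.image fun z => insert z E, univ.filter fun y => Bad T y) (by
    rw [hfam, mem_image]
    refine ⟨(E, T, Z), ?_, rfl⟩
    rw [mem_filter]
    exact ⟨mem_univ _, fun z hz => (mem_filter.1 (hZ1 hz)).2.1, hT, hZ2⟩)
  simp only [mem_image] at hc1
  obtain ⟨z, hz, rfl⟩ := hc1
  exact hc2 (mem_filter.2 ⟨mem_univ _, (mem_filter.1 (hZ1 hz)).2.2⟩)

end Pool.Agent.N441.CD
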