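import Pool.Agent.N441.CD.Hall
import Pool.Agent.N441.CD.Count

/-!
# The hypergraph
-/

set_option autoImplicit false

open Finset

namespace Pool.Agent.N441.CD

theorem card_class {M n : ℕ} (hM : 0 < M) (j : Fin M) :
    #{v : Fin n | (⟨v.1 % M, Nat.mod_lt _ hM⟩ : Fin M) = j} ≤ n / M + 1 := by
  have h : #{v : Fin n | (⟨v.1 % M, Nat.mod_lt _ hM⟩ : Fin M) = j} ≤ #(range (n / M + 1)) := by
    apply card_le_card_of_injOn (fun v => v.1 / M)
    · intro v _
      rw [mem_coe, mem_range]
      exact Nat.lt_succ_of_le (Nat.div_le_div_right v.2.le)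
    · intro v hv w hw h
      rw [mem_coe, mem_filter] at hv hw
      have e1 := congrArg Fin.val hv.2
      have e2 := congrArg Fin.val hw.2
      simp only at e1 e2 h
      apply Fin.ext
      rw [← Nat.div_add_mod v.1 M, ← Nat.div_add_mod w.1 M, h, e1, e2]
  rwa [card_range] at h

open Classical in
theorem core {M n k L s₀ : ℕ} (hM : 0 < M) (hs : 1 ≤ s₀) (hL : 0 < L)
    (hk : 2 * M * (s₀ + 2) ≤ k)
    (hp : ∀ s, s₀ ≤ s → (2 * 8 ^ L - 1) ^ s * (2 * 8 ^ L) ^ 2 ≤ (2 * 8 ^ L) ^ s) :
    ∃ H : Finset (Finset (Fin n)), (∀ e ∈ H, e.card = k) ∧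
      (∀ X : Finset (Fin n), X.card = k + 1 → ∃ e ⊆ X, e.card = k ∧ e ∉ H) ∧
      ∀ T : Finset (Fin n), T.card = k - 1 →
        n ≤ #{v | v ∉ T ∧ insert v T ∈ H} + (2 * (n / M + 1) + M * (n / L)) + k := by
  obtain ⟨r, hr1, hr2⟩ := exists_rule (M := M) (J := s₀ + 1) (k := k) (by omega) hk hM
  obtain ⟨G, hG⟩ := exists_G (L := L) n hs hp
  set c : Fin n → Fin M := fun v => ⟨v.1 % M, Nat.mod_lt _ hM⟩ with hc
  -- the numbers of points in the classes
  set τ : Finset (Fin n) → Fin M → ℕ := fun e i => #{v ∈ e | c v = i} with hτ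
  have hτsum : ∀ e : Finset (Fin n), ∑ i, τ e i = e.card := by
    intro e
    exact (card_eq_sum_card_fiberwise (f := c) (t := univ) (fun _ _ => mem_univ _)).symm
  have hτins : ∀ (e : Finset (Fin n)) (v : Fin n), v ∉ e →
      τ (insert v e) = τ e + Pi.single (c v) 1 := by
    intro e v hv
    ext i
    rw [Pi.add_apply, hτ]
    simp only [filter_insert]
    by_cases h : c v = i
    · rw [if_pos h, card_insert_of_notMem (by simp [hv]), h, Pi.single_eq_same]
    · rw [if_neg h, Pi.single_eq_of_ne (Ne.symm h)]
      rfl
  -- the covering family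
  set Q : Finset (Fin n) → Prop := fun e => ∃ i : Fin M, r (τ e + Pi.single i 1) = i ∧
    Bad {v ∈ e | c v = i} (G {v ∈ e | c v ≠ i}) with hQ
  refine ⟨univ.filter fun e => e.card = k ∧ ¬ Q e, ?_, ?_, ?_⟩
  · intro e he
    exact (mem_filter.1 he).2.1
  · intro X hX
    set i := r (τ X) with hi
    have h1 : s₀ + 1 ≤ #{v ∈ X | c v = i} := hr1 (τ X) (by rw [hτsum, hX])
    have key : ∃ v ∈ X.filter fun v => c v = i,
        Bad ((X.filter fun v => c v = i).erase v) (G (X.filter fun v => c v ≠ i)) := by
      by_cases hcase : ∃ a, ∀ v ∈ X.filter (fun v => c v = i), G (X.filter fun v => c v ≠ i) v ≠ a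
      · obtain ⟨a, ha⟩ := hcase
        obtain ⟨v, hv⟩ : (X.filter fun v => c v = i).Nonempty := card_pos.1 (by omega)
        exact ⟨v, hv, Or.inr ⟨a, fun w hw => ha w (mem_of_mem_erase hw)⟩⟩
      · push Not at hcase
        obtain ⟨v, hv, hv2⟩ := hcase (∑ v ∈ X.filter (fun v => c v = i),
          G (X.filter fun v => c v ≠ i) v)
        refine ⟨v, hv, Or.inl ?_⟩
        have := add_sum_erase _ (G (X.filter fun v => c v ≠ i)) hv
        rw [hv2] at this
        exact (add_eq_left.1 this)
    obtain ⟨v, hv, hbad⟩ := key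
    rw [mem_filter] at hv
    refine ⟨X.erase v, erase_subset _ _, ?_, ?_⟩
    · rw [card_erase_of_mem hv.1, hX]
      rfl
    · rw [mem_filter]
      rintro ⟨_, _, hnQ⟩
      apply hnQ
      rw [hQ]
      refine ⟨i, ?_, ?_⟩
      · have h2 := hτins (X.erase v) v (notMem_erase _ _)
        rw [insert_erase hv.1, hv.2] at h2
        rw [← h2]
      · rw [filter_erase]
        have h3 : (X.erase v).filter (fun w => c w ≠ i) = X.filter fun w => c w ≠ i := by
          ext w
          simp only [mem_filter, mem_erase]
          constructor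
          · rintro ⟨⟨_, h⟩, h'⟩
            exact ⟨h, h'⟩
          · rintro ⟨h, h'⟩
            refine ⟨⟨?_, h⟩, h'⟩
            rintro rfl
            exact h' hv.2
        rw [h3]
        exact hbad
  · intro T hT
    have hk1 : 1 ≤ k := by
      have : 2 * M * (s₀ + 2) = 2 * (M * s₀) + 4 * M := by ring
      omega
    have hins : ∀ v, v ∉ T → (insert v T).card = k := by
      intro v hv
      rw [card_insert_of_notMem hv, hT]
      omega
    set Act : Finset (Fin M) := univ.filter fun i => r (τ T + Pi.single i 2) = i with hAct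
    have hActcard : Act.card ≤ 2 := hr2 (τ T) (by rw [hτsum, hT])
    -- the bad vertices
    have hsub : (univ : Finset (Fin n)) ⊆
        (univ.filter fun v => v ∉ T ∧ insert v T ∈ (univ.filter fun e : Finset (Fin n) =>
          e.card = k ∧ ¬ Q e)) ∪
        ((Act.biUnion fun j => univ.filter fun v => c v = j) ∪
          (univ.filter fun i : Fin M => s₀ ≤ #{v ∈ T | c v = i}).biUnion fun i =>
            univ.filter fun z => z ∉ T.filter (fun v => c v ≠ i) ∧
              Bad (T.filter fun v => c v = i) (G (insert z (T.filter fun v => c v ≠ i)))) ∪ T := by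
      intro z _
      by_cases hzT : z ∈ T
      · exact mem_union_right _ hzT
      apply mem_union_left
      by_cases hQz : Q (insert z T)
      · apply mem_union_right
        obtain ⟨i, hi1, hi2⟩ := hQz
        rw [hτins T z hzT] at hi1
        by_cases hzi : c z = i
        · apply mem_union_left
          rw [mem_biUnion]
          refine ⟨i, ?_, mem_filter.2 ⟨mem_univ _, hzi⟩⟩
          rw [hAct, mem_filter]
          refine ⟨mem_univ _, ?_⟩
          rw [hzi, add_assoc, ← Pi.single_add] at hi1
          exact hi1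
        · apply mem_union_right
          rw [mem_biUnion]
          have h1 := hr1 (τ T + Pi.single (c z) 1 + Pi.single i 1) (by
            simp only [Pi.add_apply, sum_add_distrib, hτsum, hT, sum_pi_single', mem_univ, if_true]
            omega)
          rw [hi1, Pi.add_apply, Pi.add_apply, Pi.single_eq_same,
            Pi.single_eq_of_ne (Ne.symm hzi)] at h1
          refine ⟨i, mem_filter.2 ⟨mem_univ _, ?_⟩, mem_filter.2 ⟨mem_univ _, ?_, ?_⟩⟩
          · have : τ T i = #{v ∈ T | c v = i} := rfl
            omega
          · intro h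
            exact hzT (mem_filter.1 h).1
          · rw [filter_insert, if_neg hzi, filter_insert, if_pos hzi] at hi2
            exact hi2
      · apply mem_union_left
        rw [mem_filter]
        refine ⟨mem_univ _, hzT, ?_⟩
        rw [mem_filter]
        exact ⟨mem_univ _, hins z hzT, hQz⟩
    have h1 := card_le_card hsub
    rw [card_univ, Fintype.card_fin] at h1
    have h2 : #(Act.biUnion fun j => univ.filter fun v => c v = j) ≤ 2 * (n / M + 1) := by
      refine (card_biUnion_le_card_mul _ _ (n / M + 1) ?_).trans (Nat.mul_le_mul_right _ hActcard)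
      intro j _
      exact card_class hM j
    have h3 : #((univ.filter fun i : Fin M => s₀ ≤ #{v ∈ T | c v = i}).biUnion fun i =>
            univ.filter fun z => z ∉ T.filter (fun v => c v ≠ i) ∧
              Bad (T.filter fun v => c v = i) (G (insert z (T.filter fun v => c v ≠ i)))) ≤
        M * (n / L) := by
      refine (card_biUnion_le_card_mul _ _ (n / L) ?_).trans (Nat.mul_le_mul_right _ ?_)
      · intro i hi
        rw [Nat.le_div_iff_mul_le hL]
        exact hG _ _ (mem_filter.1 hi).2
      · exact (card_filter_le _ _).trans (by rw [card_univ, Fintype.card_fin])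
    have h4 := card_union_le
      ((univ.filter fun v => v ∉ T ∧ insert v T ∈ (univ.filter fun e : Finset (Fin n) =>
          e.card = k ∧ ¬ Q e)) ∪
        ((Act.biUnion fun j => univ.filter fun v => c v = j) ∪
          (univ.filter fun i : Fin M => s₀ ≤ #{v ∈ T | c v = i}).biUnion fun i =>
            univ.filter fun z => z ∉ T.filter (fun v => c v ≠ i) ∧
              Bad (T.filter fun v => c v = i) (G (insert z (T.filter fun v => c v ≠ i))))) T
    have h5 := card_union_le
      (univ.filter fun v => v ∉ T ∧ insert v T ∈ (univ.filter fun e : Finset (Fin n) =>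
          e.card = k ∧ ¬ Q e))
        ((Act.biUnion fun j => univ.filter fun v => c v = j) ∪
          (univ.filter fun i : Fin M => s₀ ≤ #{v ∈ T | c v = i}).biUnion fun i =>
            univ.filter fun z => z ∉ T.filter (fun v => c v ≠ i) ∧
              Bad (T.filter fun v => c v = i) (G (insert z (T.filter fun v => c v ≠ i))))
    have h6 := card_union_le (Act.biUnion fun j => univ.filter fun v => c v = j)
          ((univ.filter fun i : Fin M => s₀ ≤ #{v ∈ T | c v = i}).biUnion fun i =>
            univ.filter fun z => z ∉ T.filter (fun v => c v ≠ i) ∧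
              Bad (T.filter fun v => c v = i) (G (insert z (T.filter fun v => c v ≠ i))))
    omega

end Pool.Agent.N441.CD
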