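import Mathlib

/-!
# A rule for choosing a class

For every `ξ : Fin M → ℕ` with sum `k + 1` a coordinate `r ξ` with `J ≤ ξ (r ξ)` can be chosen such
that for every `σ` with sum `k - 1` at most two coordinates `i` satisfy `r (σ + 2 e_i) = i`.
-/

set_option autoImplicit false

open Finset

namespace Pool.Agent.N441.CD

theorem exists_rule {M J k : ℕ} (hJ : 2 ≤ J) (hk : 2 * M * (J + 1) ≤ k) (hM : 0 < M) :
    ∃ r : (Fin M → ℕ) → Fin M,
      (∀ ξ : Fin M → ℕ, ∑ i, ξ i = k + 1 → J ≤ ξ (r ξ)) ∧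
      ∀ σ : Fin M → ℕ, ∑ i, σ i = k - 1 →
        #{i : Fin M | r (σ + Pi.single i 2) = i} ≤ 2 := by
  classical
  set ι : Type := {ξ : Fin M → ℕ // ∑ i, ξ i = k + 1} with hι
  set t₀ : ι → Finset (Fin M → ℕ) := fun ξ =>
    (univ.filter fun i => J ≤ ξ.1 i).image fun i => ξ.1 - Pi.single i 2 with ht₀
  set t : ι → Finset ((Fin M → ℕ) × Fin 2) := fun ξ => t₀ ξ ×ˢ univ with ht
  have hsum2 : ∀ (σ : Fin M → ℕ) (i : Fin M), ∑ j, (σ + Pi.single i 2 : Fin M → ℕ) j = ∑ j, σ j + 2 := by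
    intro σ i
    simp [Finset.sum_add_distrib, Finset.sum_pi_single']
  have hback : ∀ (ξ : Fin M → ℕ) (i : Fin M), J ≤ ξ i →
      (ξ - Pi.single i 2 : Fin M → ℕ) + Pi.single i 2 = ξ := by
    intro ξ i h
    ext j
    by_cases hj : j = i
    · subst hj
      simp
      omega
    · simp [hj]
  have hall : ∀ A : Finset ι, A.card ≤ (A.biUnion t).card := by
    intro A
    set N : Finset (Fin M → ℕ) := A.biUnion t₀ with hN
    have h1 : A.biUnion t = N ×ˢ (univ : Finset (Fin 2)) := by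
      ext ⟨σ, b⟩
      simp only [ht, hN, mem_biUnion, mem_product, mem_univ, and_true]
    rw [h1, card_product, card_univ, Fintype.card_fin]
    -- the set of pairs
    set P : Finset (ι × Fin M) := (A ×ˢ univ).filter fun q => J ≤ q.1.1 q.2 with hP
    have h2 : (k + 1 - M * J) * A.card ≤ ∑ q ∈ P, q.1.1 q.2 := by
      rw [hP, sum_filter, sum_product, mul_comm, ← smul_eq_mul]
      apply card_nsmul_le_sum
      intro ξ _
      have e1 : ∑ i, ξ.1 i ≤ ∑ i, ((if J ≤ ξ.1 i then ξ.1 i else 0) + J) := by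
        apply sum_le_sum
        intro i _
        split_ifs with h <;> omega
      rw [sum_add_distrib, sum_const, card_univ, Fintype.card_fin, smul_eq_mul, ξ.2] at e1
      simp only
      omega
    have h3 : ∑ q ∈ P, q.1.1 q.2 ≤ ∑ w ∈ N ×ˢ (univ : Finset (Fin M)), (w.1 w.2 + 2) := by
      have inj : Set.InjOn (fun q : ι × Fin M => ((q.1.1 - Pi.single q.2 2 : Fin M → ℕ), q.2))
          (P : Set (ι × Fin M)) := by
        rintro ⟨ξ, i⟩ hq ⟨ξ', i'⟩ hq' h
        simp only [Prod.mk.injEq] at h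
        obtain ⟨ha, rfl⟩ := h
        have g1 : J ≤ ξ.1 i := (mem_filter.1 (mem_coe.1 hq)).2
        have g2 : J ≤ ξ'.1 i := (mem_filter.1 (mem_coe.1 hq')).2
        have : ξ.1 = ξ'.1 := by
          rw [← hback ξ.1 i g1, ha, hback ξ'.1 i g2]
        rw [Prod.mk.injEq]
        exact ⟨Subtype.ext this, rfl⟩
      have h4 : ∑ q ∈ P, q.1.1 q.2 = ∑ w ∈ P.image (fun q : ι × Fin M =>
          ((q.1.1 - Pi.single q.2 2 : Fin M → ℕ), q.2)), (w.1 w.2 + 2) := by
        rw [sum_image inj]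
        apply sum_congr rfl
        rintro ⟨ξ, i⟩ hq
        have g1 : J ≤ ξ.1 i := (mem_filter.1 hq).2
        simp
        omega
      rw [h4]
      apply sum_le_sum_of_subset
      intro w hw
      rw [mem_image] at hw
      obtain ⟨⟨ξ, i⟩, hq, rfl⟩ := hw
      rw [hP, mem_filter, mem_product] at hq
      rw [mem_product]
      refine ⟨?_, mem_univ _⟩
      rw [hN, mem_biUnion]
      refine ⟨ξ, hq.1.1, ?_⟩
      rw [ht₀]
      simp only
      rw [mem_image]
      exact ⟨i, mem_filter.2 ⟨mem_univ _, hq.2⟩, rfl⟩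
    have h5 : ∑ w ∈ N ×ˢ (univ : Finset (Fin M)), (w.1 w.2 + 2) = N.card * (k - 1 + 2 * M) := by
      rw [sum_product]
      rw [← smul_eq_mul, ← sum_const]
      apply sum_congr rfl
      intro σ hσ
      rw [hN, mem_biUnion] at hσ
      obtain ⟨ξ, _, hσ⟩ := hσ
      rw [ht₀] at hσ
      simp only at hσ
      rw [mem_image] at hσ
      obtain ⟨i, hi, rfl⟩ := hσ
      have g1 : J ≤ ξ.1 i := (mem_filter.1 hi).2
      rw [sum_add_distrib, sum_const, card_univ, Fintype.card_fin, smul_eq_mul]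
      have g2 := hsum2 (ξ.1 - Pi.single i 2) i
      rw [hback ξ.1 i g1, ξ.2] at g2
      simp only
      omega
    rw [h5] at h3
    have h6 := h2.trans h3
    have h7 : k - 1 + 2 * M ≤ 2 * (k + 1 - M * J) := by
      have : 2 * M * (J + 1) = 2 * (M * J) + 2 * M := by ring
      omega
    have h8 : 0 < k + 1 - M * J := by
      have : 2 * M * (J + 1) = 2 * (M * J) + 2 * M := by ring
      omega
    have h9 : (k + 1 - M * J) * A.card ≤ (k + 1 - M * J) * (N.card * 2) := by
      calc (k + 1 - M * J) * A.card ≤ N.card * (k - 1 + 2 * M) := h6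
        _ ≤ N.card * (2 * (k + 1 - M * J)) := Nat.mul_le_mul_left _ h7
        _ = (k + 1 - M * J) * (N.card * 2) := by ring
    exact Nat.le_of_mul_le_mul_left h9 h8
  obtain ⟨f, hf1, hf2⟩ := (Finset.all_card_le_biUnion_card_iff_exists_injective t).1 hall
  have hchoice : ∀ ξ : ι, ∃ i : Fin M, J ≤ ξ.1 i ∧ (f ξ).1 = ξ.1 - Pi.single i 2 := by
    intro ξ
    have h := hf2 ξ
    rw [ht] at h
    simp only at h
    rw [mem_product, ht₀] at h
    simp only at h
    obtain ⟨i, hi, h'⟩ := mem_image.1 h.1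
    exact ⟨i, (mem_filter.1 hi).2, h'.symm⟩
  choose r₀ hr1 hr2 using hchoice
  refine ⟨fun ξ => if h : ∑ i, ξ i = k + 1 then r₀ ⟨ξ, h⟩ else ⟨0, hM⟩, ?_, ?_⟩
  · intro ξ hξ
    simp only [hξ, dite_true]
    exact hr1 ⟨ξ, hξ⟩
  · intro σ hσ
    have hk1 : 1 ≤ k := by
      have : 2 * M * (J + 1) = 2 * (M * J) + 2 * M := by ring
      omega
    have hs : ∀ i, ∑ j, (σ + Pi.single i 2 : Fin M → ℕ) j = k + 1 := by
      intro i
      rw [hsum2, hσ]
      omega
    have key : ∀ i : Fin M, i ∈ (univ.filter fun i : Fin M =>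
        (if h : ∑ j, (σ + Pi.single i 2 : Fin M → ℕ) j = k + 1 then r₀ ⟨σ + Pi.single i 2, h⟩
          else ⟨0, hM⟩) = i) → (f ⟨σ + Pi.single i 2, hs i⟩).1 = σ := by
      intro i hi
      rw [mem_filter] at hi
      have h := hi.2
      rw [dif_pos (hs i)] at h
      rw [hr2, h]
      ext j
      simp
    have : #{i : Fin M | (if h : ∑ j, (σ + Pi.single i 2 : Fin M → ℕ) j = k + 1 then
        r₀ ⟨σ + Pi.single i 2, h⟩ else ⟨0, hM⟩) = i} ≤ #(univ : Finset (Fin 2)) := by
      apply card_le_card_of_injOn (fun i => (f ⟨σ + Pi.single i 2, hs i⟩).2)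
      · intro i _
        exact mem_coe.2 (mem_univ _)
      · intro i hi j hj h
        simp only at h
        have e1 := key i (mem_coe.1 hi)
        have e2 := key j (mem_coe.1 hj)
        have e3 : f ⟨σ + Pi.single i 2, hs i⟩ = f ⟨σ + Pi.single j 2, hs j⟩ :=
          Prod.ext (by rw [e1, e2]) h
        have e4 := hf1 e3
        have e5 : (σ + Pi.single i 2 : Fin M → ℕ) = σ + Pi.single j 2 := congrArg Subtype.val e4
        have e6 : (Pi.single i 2 : Fin M → ℕ) = Pi.single j 2 := add_left_cancel e5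
        by_contra hne
        have e7 := congrFun e6 i
        rw [Pi.single_eq_same, Pi.single_eq_of_ne hne] at e7
        exact absurd e7 (by norm_num)
    simpa using this

end Pool.Agent.N441.CD
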